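import Pool.Agent.W_26e041_h61.BlkB

/-!
Combinatorial bookkeeping for the second case of a block: a classification of all vertices which
are drawn.
-/

namespace EPG26

variable {V : Type*} [DecidableEq V]

theorem BlkJa_fan {z : V} : ∀ {l : List V} {f : Finset V}, f ∈ fanF z l →
    z ∈ f ∧ ∀ v ∈ f, v ≠ z → v ∈ l := by
  intro l f hf
  obtain ⟨p, a, b, s, rfl, rfl⟩ := DiscH_mem_fanF.1 hf
  refine ⟨by simp, fun v hv hz => ?_⟩
  simp only [Finset.mem_insert, Finset.mem_singleton] at hv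
  rcases hv with rfl | rfl | rfl
  · exact absurd rfl hz
  · simp
  · simp

theorem BlkJa_snoc (z a c : V) : ∀ l : List V,
    fanF z (l ++ [a, c]) = insert {z, a, c} (fanF z (l ++ [a])) := by
  intro l
  induction l with
  | nil => simp [fanF]
  | cons x t ih =>
    cases t with
    | nil => simp [fanF, Finset.pair_comm]
    | cons y t =>
      simp only [List.cons_append] at ih ⊢
      rw [fanF, ih, Finset.insert_comm, fanF]

theorem BlkJa_chain {z : V} {Fs : Finset (Finset V)} : ∀ {l : List V}, fanF z l ⊆ Fs →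
    List.IsChain (fun p q => ({z, p, q} : Finset V) ∈ Fs) l := by
  intro l
  induction l with
  | nil => intro _; exact List.isChain_nil
  | cons a t ih =>
    intro h
    cases t with
    | nil => exact List.isChain_singleton _
    | cons b t =>
      rw [List.isChain_cons_cons]
      exact ⟨h (by simp [fanF]), ih fun f hf => h (by rw [fanF]; exact Finset.mem_insert_of_mem hf)⟩

/-- all pairs of a face of a fan -/
theorem BlkJa_pairs {R : V → V → Prop} (hR : ∀ u v, R u v → R v u) {z : V} {l : List V}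
    (h1 : ∀ v ∈ l, R z v) (h2 : List.IsChain R l) {f : Finset V} (hf : f ∈ fanF z l) :
    ∀ p ∈ f, ∀ r ∈ f, p ≠ r → R p r := by
  obtain ⟨p, a, b, s, rfl, rfl⟩ := DiscH_mem_fanF.1 hf
  have h3 : R a b := by
    have h4 := (List.isChain_append.1 h2).2.1
    rw [List.isChain_cons_cons] at h4
    exact h4.1
  have ha : R z a := h1 a (by simp)
  have hb : R z b := h1 b (by simp)
  intro u hu v hv huv
  simp only [Finset.mem_insert, Finset.mem_singleton] at hu hv
  rcases hu with rfl | rfl | rfl <;> rcases hv with rfl | rfl | rfl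
  · exact absurd rfl huv
  · exact ha
  · exact hb
  · exact hR _ _ ha
  · exact absurd rfl huv
  · exact h3
  · exact hR _ _ hb
  · exact hR _ _ h3
  · exact absurd rfl huv

/-- all pairs of a triangle -/
theorem BlkJa_tri {R : V → V → Prop} (hR : ∀ u v, R u v → R v u) {x y z : V}
    (h1 : R x y) (h2 : R x z) (h3 : R y z) :
    ∀ p ∈ ({x, y, z} : Finset V), ∀ r ∈ ({x, y, z} : Finset V), p ≠ r → R p r := by
  intro u hu v hv huv
  simp only [Finset.mem_insert, Finset.mem_singleton] at hu hv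
  rcases hu with rfl | rfl | rfl <;> rcases hv with rfl | rfl | rfl
  · exact absurd rfl huv
  · exact h1
  · exact h2
  · exact hR _ _ h1
  · exact absurd rfl huv
  · exact h3
  · exact hR _ _ h2
  · exact hR _ _ h3
  · exact absurd rfl huv

omit [DecidableEq V] in
theorem BlkJa_mem_bd {w e d v : V} {al be fs : List V} :
    v ∈ blkBd w e d al be fs ↔ v ∈ fs.reverse ++ [d] ∨ v ∈ be ∨ v = w ∨ v ∈ al ∨ v = e := by
  unfold blkBd
  simp only [List.mem_append, List.mem_reverse, List.mem_singleton]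
  tauto

theorem BlkJa_cont {G : SimpleGraph V} {T : Finset V} {Fs : Finset (Finset V)}
    {J : Finset V → Finset V} (hc : Ctx G T Fs J) {o1 o2 q w e d : V} {al be fs : List V}
    {F : Finset (Finset V)} (hB : Blk0 T Fs o1 o2 q w e d al be fs F) {f : Finset V}
    (hf : f ∈ Fs) {v : V} (hv : v ∈ J f) :
    v ∉ verts (blkBd w e d al be fs) F ∧ v ≠ o1 ∧ v ≠ o2 ∧ v ≠ q := by
  have key : ∀ g ∈ Fs, v ∉ g := fun g hg => Finset.disjoint_left.1 (hc.sep f hf g hg) hv
  have hlen : 3 ≤ (blkBd w e d al be fs).length := by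
    unfold blkBd
    simp only [List.length_append, List.length_cons, List.length_nil]
    omega
  have h1 : ({o1, q, e} : Finset V) ∈ Fs := by rw [hB.hF]; simp [blkF]
  have h2 : ({o2, q, d} : Finset V) ∈ Fs := by rw [hB.hF]; simp [blkF]
  refine ⟨?_, ?_, ?_, ?_⟩
  · intro h
    have h3 : v ∈ F.biUnion id := by
      rcases Finset.mem_union.1 h with h4 | h4
      · exact hB.reg.disc.mem_biUnion hlen (List.mem_toFinset.1 h4)
      · exact h4
    obtain ⟨g, hg, hvg⟩ := Finset.mem_biUnion.1 h3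
    exact key g (hB.reg.sub hg) hvg
  · rintro rfl
    exact key _ h1 (by simp)
  · rintro rfl
    exact key _ h2 (by simp)
  · rintro rfl
    exact key _ h1 (by simp)

/-- the classification of the vertices and of the faces -/
structure BlkJK (Fs : Finset (Finset V)) (J : Finset V → Finset V) (o1 o2 q w e d b x y : V)
    (L₁ L₂ al be fs : List V) (F₁ F₂ F : Finset (Finset V)) (k : V → ℕ) (c : Finset V → ℕ) :
    Prop where
  kA : ∀ v ∈ b :: L₁, k v = 1
  kB : ∀ v ∈ y :: L₂, k v = 2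
  kC : ∀ v, v ∈ be ∨ v ∈ al → k v = 3
  kw : k w = 4
  ke : k e = 5
  kx : k x = 6
  k7 : ∀ v, v ∈ verts (x :: y :: L₂ ++ be ++ [w] ++ al.reverse ++ [e]) F₁ →
    v ∉ x :: y :: L₂ ++ be ++ [w] ++ al.reverse ++ [e] → k v = 7
  k8 : ∀ v, v ∈ verts ([x] ++ (b :: L₁ ++ [y]).reverse ++ [e]) F₂ →
    v ∉ [x] ++ (b :: L₁ ++ [y]).reverse ++ [e] → k v = 8
  kJ : ∀ f ∈ Fs, ∀ v ∈ J f, k v = 10 + c f
  kV : ∀ v ∈ verts (blkBd w e d al be fs) F, v ∈ b :: L₁ ∨ v ∈ y :: L₂ ∨ (v ∈ be ∨ v ∈ al) ∨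
    v = w ∨ v = e ∨ v = x ∨
    (v ∈ verts (x :: y :: L₂ ++ be ++ [w] ++ al.reverse ++ [e]) F₁ ∧
      v ∉ x :: y :: L₂ ++ be ++ [w] ++ al.reverse ++ [e]) ∨
    (v ∈ verts ([x] ++ (b :: L₁ ++ [y]).reverse ++ [e]) F₂ ∧
      v ∉ [x] ++ (b :: L₁ ++ [y]).reverse ++ [e])
  V1 : ∀ v, v ∈ verts (x :: y :: L₂ ++ be ++ [w] ++ al.reverse ++ [e]) F₁ →
    v ∈ verts (blkBd w e d al be fs) F
  V2 : ∀ v, v ∈ verts ([x] ++ (b :: L₁ ++ [y]).reverse ++ [e]) F₂ →
    v ∈ verts (blkBd w e d al be fs) F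
  c1 : ∀ f, f = {o2, q, d} ∨ f ∈ fanF q (d :: fs) → f ∈ Fs ∧ c f = 1
  c2 : ∀ f, f = {q, e, b} ∨ f = {o1, q, e} → f ∈ Fs ∧ c f = 2
  c3 : ∀ f ∈ F₂, f ∈ Fs ∧ c f = 3
  c4 : ∀ f ∈ F₁ ∪ (fanF o1 (e :: al ++ [w]) ∪ fanF o2 (d :: be ++ [w])), f ∈ Fs ∧ c f = 4
  c5 : c {o1, o2, w} = 5
  call : ∀ f ∈ Fs, f = {o1, o2, w} ∨ (f = {o2, q, d} ∨ f ∈ fanF q (d :: fs)) ∨
    (f = {q, e, b} ∨ f = {o1, q, e}) ∨ f ∈ F₂ ∨
    f ∈ F₁ ∪ (fanF o1 (e :: al ++ [w]) ∪ fanF o2 (d :: be ++ [w]))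

/-- the boundary lists -/
theorem BlkJa_lists {w e d b x y : V} {L₁ L₂ al be fs : List V}
    (hn : (blkBd w e d al be fs).Nodup) (hl : fs.reverse ++ [d] = b :: (L₁ ++ y :: L₂))
    (hx : x ∉ blkBd w e d al be fs) :
    ∃ k : V → ℕ, (∀ v ∈ b :: L₁, k v = 1) ∧ (∀ v ∈ y :: L₂, k v = 2) ∧
      (∀ v, v ∈ be ∨ v ∈ al → k v = 3) ∧ k w = 4 ∧ k e = 5 ∧ k x = 6 := by
  classical
  unfold blkBd at hn hx
  rw [hl] at hn hx
  have hn' : ((b :: L₁) ++ ((y :: L₂) ++ (be ++ (w :: (al.reverse ++ [e]))))).Nodup := by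
    simpa only [List.cons_append, List.append_assoc, List.nil_append] using hn
  have hx' : x ∉ ((b :: L₁) ++ ((y :: L₂) ++ (be ++ (w :: (al.reverse ++ [e]))))) := by
    simpa only [List.cons_append, List.append_assoc, List.nil_append] using hx
  obtain ⟨-, hn1, hd1⟩ := List.nodup_append'.1 hn'
  obtain ⟨-, hn2, hd2⟩ := List.nodup_append'.1 hn1
  obtain ⟨-, hn3, hd3⟩ := List.nodup_append'.1 hn2
  obtain ⟨hw', hn4⟩ := List.nodup_cons.1 hn3
  obtain ⟨-, -, hd4⟩ := List.nodup_append'.1 hn4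
  rw [List.mem_append, List.mem_append, List.mem_append, List.mem_cons (a := x) (b := w),
    List.mem_append, List.mem_reverse, List.mem_singleton, not_or, not_or, not_or, not_or,
    not_or] at hx'
  obtain ⟨x1, x2, x3, x4, x5, x6⟩ := hx'
  have m1 : ∀ v, v ∈ be ∨ v ∈ al ∨ v = w ∨ v = e → v ∈ be ++ (w :: (al.reverse ++ [e])) := by
    intro v hv
    simp only [List.mem_append, List.mem_cons, List.mem_reverse, List.not_mem_nil, or_false]
    tauto
  refine ⟨fun v => if v ∈ b :: L₁ then 1 else if v ∈ y :: L₂ then 2 else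
    if v ∈ be ∨ v ∈ al then 3 else if v = w then 4 else if v = e then 5 else 6, ?_, ?_, ?_, ?_,
    ?_, ?_⟩
  · intro v hv
    simp only [if_pos hv]
  · intro v hv
    have h1 : v ∉ b :: L₁ := fun h => hd1 h (List.mem_append_left _ hv)
    simp only [if_neg h1, if_pos hv]
  · intro v hv
    have h0 : v ∈ be ++ (w :: (al.reverse ++ [e])) := m1 v (by tauto)
    have h1 : v ∉ b :: L₁ := fun h => hd1 h (List.mem_append_right _ h0)
    have h2 : v ∉ y :: L₂ := fun h => hd2 h h0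
    simp only [if_neg h1, if_neg h2, if_pos hv]
  · have h0 : w ∈ be ++ (w :: (al.reverse ++ [e])) := m1 w (by tauto)
    have h1 : w ∉ b :: L₁ := fun h => hd1 h (List.mem_append_right _ h0)
    have h2 : w ∉ y :: L₂ := fun h => hd2 h h0
    have h3 : ¬ (w ∈ be ∨ w ∈ al) := by
      rintro (h | h)
      · exact hd3 h (by simp)
      · exact hw' (by simp [h])
    simp only [if_neg h1, if_neg h2, if_neg h3, if_true]
  · have h0 : e ∈ be ++ (w :: (al.reverse ++ [e])) := m1 e (by tauto)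
    have h1 : e ∉ b :: L₁ := fun h => hd1 h (List.mem_append_right _ h0)
    have h2 : e ∉ y :: L₂ := fun h => hd2 h h0
    have h3 : ¬ (e ∈ be ∨ e ∈ al) := by
      rintro (h | h)
      · exact hd3 h (by simp)
      · exact hd4 (List.mem_reverse.2 h) (by simp)
    have h4 : ¬ e = w := by
      rintro rfl
      exact hw' (by simp)
    simp only [if_neg h1, if_neg h2, if_neg h3, if_neg h4, if_true]
  · have h3 : ¬ (x ∈ be ∨ x ∈ al) := by tauto
    simp only [if_neg x1, if_neg x2, if_neg h3, if_neg x4, if_neg x6]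

/-- the faces -/
theorem BlkJa_faces {T : Finset V} {Fs : Finset (Finset V)} {o1 o2 q w e d b x y : V}
    {L₁ L₂ al be fs : List V} {F F₁ F₂ : Finset (Finset V)}
    (hB : Blk0 T Fs o1 o2 q w e d al be fs F) (hl : fs.reverse ++ [d] = b :: (L₁ ++ y :: L₂))
    (hx : x ∉ blkBd w e d al be fs) (hF : F = F₁ ∪ F₂) (hFF : Disjoint F₁ F₂) :
    ∃ c : Finset V → ℕ, (∀ f, f = {o2, q, d} ∨ f ∈ fanF q (d :: fs) → f ∈ Fs ∧ c f = 1) ∧
      (∀ f, f = {q, e, b} ∨ f = {o1, q, e} → f ∈ Fs ∧ c f = 2) ∧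
      (∀ f ∈ F₂, f ∈ Fs ∧ c f = 3) ∧
      (∀ f ∈ F₁ ∪ (fanF o1 (e :: al ++ [w]) ∪ fanF o2 (d :: be ++ [w])), f ∈ Fs ∧ c f = 4) ∧
      c {o1, o2, w} = 5 ∧
      ∀ f ∈ Fs, f = {o1, o2, w} ∨ (f = {o2, q, d} ∨ f ∈ fanF q (d :: fs)) ∨
        (f = {q, e, b} ∨ f = {o1, q, e}) ∨ f ∈ F₂ ∨
        f ∈ F₁ ∪ (fanF o1 (e :: al ++ [w]) ∪ fanF o2 (d :: be ++ [w])) := by
  classical
  have hnd := hB.nd
  simp only [List.nodup_cons, List.mem_cons, not_or] at hnd
  obtain ⟨⟨n1, n2, n3⟩, ⟨n4, n5⟩, n6, hnb⟩ := hnd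
  obtain ⟨k, k1, k2, k3, k4, k5, k6⟩ := BlkJa_lists hnb hl hx
  -- the last element of `fs`
  obtain ⟨t, ht⟩ : ∃ t, fs = t ++ [b] := by
    cases hr : fs.reverse with
    | nil =>
      rw [hr] at hl
      have := congrArg List.length hl
      simp at this
    | cons a s =>
      rw [hr] at hl
      have h1 : a = b := (List.cons.inj hl).1
      refine ⟨s.reverse, ?_⟩
      have h2 := congrArg List.reverse hr
      rw [List.reverse_reverse] at h2
      rw [h2, h1]
      simp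
  have hfan : fanF q (d :: fs ++ [e]) = insert {q, e, b} (fanF q (d :: fs)) := by
    have h1 : d :: fs ++ [e] = (d :: t) ++ [b, e] := by rw [ht]; simp
    have h2 : d :: fs = (d :: t) ++ [b] := by rw [ht]; simp
    rw [h1, BlkJa_snoc, ← h2, Finset.pair_comm b e]
  have hFs : ∀ f, f ∈ Fs ↔ f = {o1, o2, w} ∨ (f = {o2, q, d} ∨ f ∈ fanF q (d :: fs)) ∨
      (f = {q, e, b} ∨ f = {o1, q, e}) ∨ f ∈ F₂ ∨
      f ∈ F₁ ∪ (fanF o1 (e :: al ++ [w]) ∪ fanF o2 (d :: be ++ [w])) := by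
    intro f
    rw [hB.hF, blkF, hfan, hF]
    simp only [Finset.mem_union, Finset.mem_insert, Finset.mem_singleton]
    tauto
  have hmd : ∀ v, v ∈ d :: fs → v ∈ blkBd w e d al be fs := by
    intro v hv
    rw [BlkJa_mem_bd]
    left
    simp only [List.mem_append, List.mem_reverse, List.mem_cons, List.not_mem_nil, or_false] at hv ⊢
    tauto
  have hma : ∀ v, v ∈ e :: al ++ [w] → v ∈ blkBd w e d al be fs := by
    intro v hv
    rw [BlkJa_mem_bd]
    simp only [List.mem_append, List.mem_cons, List.not_mem_nil, or_false] at hv ⊢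
    tauto
  have hmb : ∀ v, v ∈ d :: be ++ [w] → v ∈ blkBd w e d al be fs := by
    intro v hv
    rw [BlkJa_mem_bd]
    simp only [List.mem_append, List.mem_reverse, List.mem_cons, List.not_mem_nil, or_false] at hv ⊢
    tauto
  have hed : e ∉ d :: fs := by
    intro h
    have h1 : e ∈ fs.reverse ++ [d] := by
      simp only [List.mem_append, List.mem_reverse, List.mem_cons, List.not_mem_nil,
        or_false] at h ⊢
      tauto
    rw [hl, ← List.cons_append, List.mem_append] at h1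
    rcases h1 with h1 | h1
    · have := k1 e h1
      omega
    · have := k2 e h1
      omega
  have hob : ∀ f ∈ F, o1 ∉ f ∧ o2 ∉ f ∧ q ∉ f := by
    intro f hf
    have h1 : ∀ v ∈ f, v ∈ verts (blkBd w e d al be fs) F := fun v hv =>
      Finset.mem_union_right _ (Finset.mem_biUnion.2 ⟨f, hf, hv⟩)
    refine ⟨fun h => hB.out o1 ?_ (h1 _ h), fun h => hB.out o2 ?_ (h1 _ h),
      fun h => hB.out q ?_ (h1 _ h)⟩ <;> rw [hB.hT] <;> simp
  have hmem : ∀ v, v = d ∨ v = e ∨ v = w ∨ v = b → v ∈ blkBd w e d al be fs := by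
    rintro v (rfl | rfl | rfl | rfl)
    · exact hmd _ (by simp)
    · exact hma _ (by simp)
    · exact hma _ (by simp)
    · exact hmd _ (by rw [ht]; simp)
  have o1d : ∀ v, v ∈ blkBd w e d al be fs → o1 ≠ v := fun v hv h => n3 (h ▸ hv)
  have o2d : ∀ v, v ∈ blkBd w e d al be fs → o2 ≠ v := fun v hv h => n5 (h ▸ hv)
  have qd : ∀ v, v ∈ blkBd w e d al be fs → q ≠ v := fun v hv h => n6 (h ▸ hv)
  have hd := hmem d (by tauto)
  have he := hmem e (by tauto)
  have hw := hmem w (by tauto)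
  have hb := hmem b (by tauto)
  refine ⟨fun f => if o1 ∈ f then (if o2 ∈ f then 5 else if q ∈ f then 2 else 4) else
    if o2 ∈ f then (if q ∈ f then 1 else 4) else
    if q ∈ f then (if e ∈ f then 2 else 1) else if f ∈ F₂ then 3 else 4, ?_, ?_, ?_, ?_, ?_, ?_⟩
  · intro f hf
    refine ⟨(hFs f).2 (by tauto), ?_⟩
    rcases hf with rfl | hf
    · have h1 : o1 ∉ ({o2, q, d} : Finset V) := by
        simp only [Finset.mem_insert, Finset.mem_singleton, not_or]
        exact ⟨n1, n2, o1d d hd⟩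
      have h2 : o2 ∈ ({o2, q, d} : Finset V) := by simp
      have h3 : q ∈ ({o2, q, d} : Finset V) := by simp
      simp only [if_neg h1, if_pos h2, if_pos h3]
    · obtain ⟨h1, h2⟩ := BlkJa_fan hf
      have h3 : o1 ∉ f := fun h => n3 (hmd _ (h2 _ h n2))
      have h4 : o2 ∉ f := fun h => n5 (hmd _ (h2 _ h n4))
      have h5 : e ∉ f := fun h => hed (h2 _ h (qd e he).symm)
      simp only [if_neg h3, if_neg h4, if_pos h1, if_neg h5]
  · intro f hf
    refine ⟨(hFs f).2 (by tauto), ?_⟩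
    rcases hf with rfl | rfl
    · have h1 : o1 ∉ ({q, e, b} : Finset V) := by
        simp only [Finset.mem_insert, Finset.mem_singleton, not_or]
        exact ⟨n2, o1d e he, o1d b hb⟩
      have h2 : o2 ∉ ({q, e, b} : Finset V) := by
        simp only [Finset.mem_insert, Finset.mem_singleton, not_or]
        exact ⟨n4, o2d e he, o2d b hb⟩
      have h3 : q ∈ ({q, e, b} : Finset V) := by simp
      have h4 : e ∈ ({q, e, b} : Finset V) := by simp
      simp only [if_neg h1, if_neg h2, if_pos h3, if_pos h4]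
    · have h1 : o1 ∈ ({o1, q, e} : Finset V) := by simp
      have h2 : o2 ∉ ({o1, q, e} : Finset V) := by
        simp only [Finset.mem_insert, Finset.mem_singleton, not_or]
        exact ⟨fun h => n1 h.symm, n4, o2d e he⟩
      have h3 : q ∈ ({o1, q, e} : Finset V) := by simp
      simp only [if_pos h1, if_neg h2, if_pos h3]
  · intro f hf
    refine ⟨(hFs f).2 (by tauto), ?_⟩
    obtain ⟨h1, h2, h3⟩ := hob f (by rw [hF]; exact Finset.mem_union_right _ hf)
    simp only [if_neg h1, if_neg h2, if_neg h3, if_pos hf]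
  · intro f hf
    refine ⟨(hFs f).2 (by tauto), ?_⟩
    rcases Finset.mem_union.1 hf with hf | hf
    · obtain ⟨h1, h2, h3⟩ := hob f (by rw [hF]; exact Finset.mem_union_left _ hf)
      have h4 : f ∉ F₂ := Finset.disjoint_left.1 hFF hf
      simp only [if_neg h1, if_neg h2, if_neg h3, if_neg h4]
    rcases Finset.mem_union.1 hf with hf | hf
    · obtain ⟨h1, h2⟩ := BlkJa_fan hf
      have h3 : o2 ∉ f := fun h => n5 (hma _ (h2 _ h (fun h => n1 h.symm)))
      have h4 : q ∉ f := fun h => n6 (hma _ (h2 _ h (fun h => n2 h.symm)))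
      simp only [if_pos h1, if_neg h3, if_neg h4]
    · obtain ⟨h1, h2⟩ := BlkJa_fan hf
      have h3 : o1 ∉ f := fun h => n3 (hmb _ (h2 _ h n1))
      have h4 : q ∉ f := fun h => n6 (hmb _ (h2 _ h (fun h => n4 h.symm)))
      simp only [if_neg h3, if_pos h1, if_neg h4]
  · have h1 : o1 ∈ ({o1, o2, w} : Finset V) := by simp
    have h2 : o2 ∈ ({o1, o2, w} : Finset V) := by simp
    simp only [if_pos h1, if_pos h2]
  · exact fun f hf => (hFs f).1 hf

theorem BlkJa_main {G : SimpleGraph V} {T : Finset V} {Fs : Finset (Finset V)}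
    {J : Finset V → Finset V} (hc : Ctx G T Fs J) {o1 o2 q w e d b x y : V}
    {L₁ L₂ al be fs : List V} {F F₁ F₂ : Finset (Finset V)}
    (hB : Blk0 T Fs o1 o2 q w e d al be fs F) (hl : fs.reverse ++ [d] = b :: (L₁ ++ y :: L₂))
    (hx : x ∈ verts (blkBd w e d al be fs) F) (hxb : x ∉ blkBd w e d al be fs)
    (hF : F = F₁ ∪ F₂) (hFF : Disjoint F₁ F₂)
    (hs : ∀ v, v ∈ verts (x :: y :: L₂ ++ be ++ [w] ++ al.reverse ++ [e]) F₁ →
      v ∈ verts ([x] ++ (b :: L₁ ++ [y]).reverse ++ [e]) F₂ → v = x ∨ v = y ∨ v = e) :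
    ∃ k c, BlkJK Fs J o1 o2 q w e d b x y L₁ L₂ al be fs F₁ F₂ F k c := by
  classical
  have hnb : (blkBd w e d al be fs).Nodup := by
    have h := hB.nd
    rw [List.nodup_cons, List.nodup_cons, List.nodup_cons] at h
    exact h.2.2.2
  obtain ⟨k, k1, k2, k3, k4, k5, k6⟩ := BlkJa_lists hnb hl hxb
  obtain ⟨c, c1, c2, c3, c4, c5, c6⟩ := BlkJa_faces hB hl hxb hF hFF
  obtain ⟨l₁, hl₁⟩ : ∃ l, l = x :: y :: L₂ ++ be ++ [w] ++ al.reverse ++ [e] := ⟨_, rfl⟩
  obtain ⟨l₂, hl₂⟩ : ∃ l, l = [x] ++ (b :: L₁ ++ [y]).reverse ++ [e] := ⟨_, rfl⟩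
  have ml₁ : ∀ v, v ∈ l₁ ↔ v = x ∨ v ∈ y :: L₂ ∨ v ∈ be ∨ v = w ∨ v ∈ al ∨ v = e := by
    intro v
    rw [hl₁]
    simp only [List.mem_append, List.mem_cons, List.mem_reverse, List.not_mem_nil, or_false]
    tauto
  have ml₂ : ∀ v, v ∈ l₂ ↔ v = x ∨ v ∈ b :: L₁ ∨ v = y ∨ v = e := by
    intro v
    rw [hl₂]
    simp only [List.mem_append, List.mem_cons, List.mem_reverse, List.not_mem_nil, or_false]
    tauto
  have mbd : ∀ v, v ∈ blkBd w e d al be fs ↔
      v ∈ b :: L₁ ∨ v ∈ y :: L₂ ∨ v ∈ be ∨ v = w ∨ v ∈ al ∨ v = e := by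
    intro v
    rw [BlkJa_mem_bd, hl, ← List.cons_append, List.mem_append]
    tauto
  rw [← hl₁, ← hl₂] at hs
  have vL : ∀ {l : List V} {F' : Finset (Finset V)} {v : V}, v ∈ l → v ∈ verts l F' :=
    fun h => Finset.mem_union_left _ (List.mem_toFinset.2 h)
  have V1 : ∀ v, v ∈ verts l₁ F₁ → v ∈ verts (blkBd w e d al be fs) F := by
    intro v hv
    rcases Finset.mem_union.1 hv with h | h
    · rw [List.mem_toFinset, ml₁] at h
      rcases h with rfl | h
      · exact hx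
      · exact vL ((mbd v).2 (by tauto))
    · obtain ⟨f, hf, hvf⟩ := Finset.mem_biUnion.1 h
      exact Finset.mem_union_right _ (Finset.mem_biUnion.2
        ⟨f, by rw [hF]; exact Finset.mem_union_left _ hf, hvf⟩)
  have V2 : ∀ v, v ∈ verts l₂ F₂ → v ∈ verts (blkBd w e d al be fs) F := by
    intro v hv
    rcases Finset.mem_union.1 hv with h | h
    · rw [List.mem_toFinset, ml₂] at h
      rcases h with rfl | h
      · exact hx
      · refine vL ((mbd v).2 ?_)
        rcases h with h | rfl | h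
        · tauto
        · right; left; simp
        · tauto
    · obtain ⟨f, hf, hvf⟩ := Finset.mem_biUnion.1 h
      exact Finset.mem_union_right _ (Finset.mem_biUnion.2
        ⟨f, by rw [hF]; exact Finset.mem_union_right _ hf, hvf⟩)
  have hxye₁ : ∀ v, v = x ∨ v = y ∨ v = e → v ∈ l₁ := by
    rintro v (rfl | rfl | rfl) <;> rw [ml₁] <;> simp
  have hxye₂ : ∀ v, v = x ∨ v = y ∨ v = e → v ∈ l₂ := by
    rintro v (rfl | rfl | rfl) <;> rw [ml₂] <;> simp
  have hcon : ∀ v, v ∈ verts (blkBd w e d al be fs) F → ¬ ∃ f ∈ Fs, v ∈ J f := by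
    rintro v hv ⟨f, hf, hvf⟩
    exact (BlkJa_cont hc hB hf hvf).1 hv
  -- no boundary vertex is an inner vertex
  have hi1 : ∀ v, v ∈ l₁ ∨ v ∈ l₂ → ¬ (v ∈ verts l₁ F₁ ∧ v ∉ l₁) := by
    rintro v h ⟨h1, h2⟩
    rcases h with h | h
    · exact h2 h
    · exact h2 (hxye₁ v (hs v h1 (vL h)))
  have hi2 : ∀ v, v ∈ l₁ ∨ v ∈ l₂ → ¬ (v ∈ verts l₂ F₂ ∧ v ∉ l₂) := by
    rintro v h ⟨h1, h2⟩
    rcases h with h | h
    · exact h2 (hxye₂ v (hs v (vL h) h1))
    · exact h2 h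
  obtain ⟨k', hk'⟩ : ∃ k' : V → ℕ, k' = fun v => if h : ∃ f ∈ Fs, v ∈ J f then 10 + c h.choose else
      if v ∈ verts l₁ F₁ ∧ v ∉ l₁ then 7 else if v ∈ verts l₂ F₂ ∧ v ∉ l₂ then 8 else k v :=
    ⟨_, rfl⟩
  have hkb : ∀ v, v ∈ l₁ ∨ v ∈ l₂ → k' v = k v := by
    intro v hv
    have h1 : v ∈ verts (blkBd w e d al be fs) F := by
      rcases hv with h | h
      · exact V1 v (vL h)
      · exact V2 v (vL h)
    rw [hk']
    simp only [dif_neg (hcon v h1), if_neg (hi1 v hv), if_neg (hi2 v hv)]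
  refine ⟨k', c, ?_, ?_, ?_, ?_, ?_, ?_, ?_, ?_, ?_, ?_, ?_, ?_, c1, c2, c3, c4, c5, c6⟩
  · intro v hv
    rw [hkb v (Or.inr ((ml₂ v).2 (by tauto))), k1 v hv]
  · intro v hv
    rw [hkb v (Or.inl ((ml₁ v).2 (by tauto))), k2 v hv]
  · intro v hv
    rw [hkb v (Or.inl ((ml₁ v).2 (by tauto))), k3 v hv]
  · rw [hkb w (Or.inl ((ml₁ w).2 (by tauto))), k4]
  · rw [hkb e (Or.inl ((ml₁ e).2 (by tauto))), k5]
  · rw [hkb x (Or.inl ((ml₁ x).2 (by tauto))), k6]
  · intro v hv hv'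
    rw [← hl₁] at hv hv'
    rw [hk']
    simp only [dif_neg (hcon v (V1 v hv)), if_pos (show v ∈ verts l₁ F₁ ∧ v ∉ l₁ from ⟨hv, hv'⟩)]
  · intro v hv hv'
    rw [← hl₂] at hv hv'
    have h1 : ¬ (v ∈ verts l₁ F₁ ∧ v ∉ l₁) := fun h => hv' (hxye₂ v (hs v h.1 hv))
    rw [hk']
    simp only [dif_neg (hcon v (V2 v hv)), if_neg h1,
      if_pos (show v ∈ verts l₂ F₂ ∧ v ∉ l₂ from ⟨hv, hv'⟩)]
  · intro f hf v hv
    have h : ∃ f ∈ Fs, v ∈ J f := ⟨f, hf, hv⟩
    have h1 : h.choose = f := by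
      by_contra hne
      exact Finset.disjoint_left.1 (hc.disj _ h.choose_spec.1 f hf hne) h.choose_spec.2 hv
    rw [hk']
    simp only [dif_pos h, h1]
  · intro v hv
    rw [← hl₁, ← hl₂]
    rcases Finset.mem_union.1 hv with h | h
    · rw [List.mem_toFinset, mbd] at h
      tauto
    · obtain ⟨f, hf, hvf⟩ := Finset.mem_biUnion.1 h
      rw [hF] at hf
      rcases Finset.mem_union.1 hf with hf | hf
      · have h1 : v ∈ verts l₁ F₁ :=
          Finset.mem_union_right _ (Finset.mem_biUnion.2 ⟨f, hf, hvf⟩)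
        by_cases h2 : v ∈ l₁
        · rw [ml₁] at h2
          tauto
        · tauto
      · have h1 : v ∈ verts l₂ F₂ :=
          Finset.mem_union_right _ (Finset.mem_biUnion.2 ⟨f, hf, hvf⟩)
        by_cases h2 : v ∈ l₂
        · rw [ml₂] at h2
          rcases h2 with h2 | h2 | rfl | h2
          · tauto
          · tauto
          · right; left; simp
          · tauto
        · tauto
  · rw [← hl₁]
    exact V1
  · rw [← hl₂]
    exact V2

end EPG26
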